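import Mathlib
import Pool.Agent.H93.Kz4

namespace Pool.Agent.Results.MP_caca3f_an.PolyUpper

universe u

/-- Euclidean distortion of the subspace S of X. -/
noncomputable def c2 {X : Type u} [MetricSpace X] (S : Set X) : ENNReal :=
  sInf {t | ∃ D : ℝ, 1 ≤ D ∧ t = ENNReal.ofReal D ∧
    ∃ (H : Type u) (_ : NormedAddCommGroup H) (_ : InnerProductSpace ℝ H) (_ : CompleteSpace H)
      (f : S → H) (s : ℝ), 0 < s ∧ ∀ x y : S,
        s * dist (x : X) (y : X) ≤ ‖f x - f y‖ ∧ ‖f x - f y‖ ≤ s * D * dist (x : X) (y : X)}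

theorem result : ∃ C : ℝ, 0 < C ∧ ∀ D : ℝ, 1 ≤ D → ∀ k : ℕ, 1 ≤ k →
    ∀ (X : Type u) [MetricSpace X] (A : Fin k → Set X), (∀ i, c2 (A i) ≤ ENNReal.ofReal D) →
      c2 (⋃ i, A i) ≤ ENNReal.ofReal (C * D ^ 4 * (k : ℝ) ^ (83 * D)) := by
  classical
  refine ⟨21504000, by norm_num, fun D hD k hk X _ A hA => ?_⟩
  have ex : ∀ i, ∃ (H : Type u) (_ : NormedAddCommGroup H) (_ : InnerProductSpace ℝ H)
      (_ : CompleteSpace H) (f : A i → H) (s : ℝ), 0 < s ∧ ∀ x y : A i,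
        s * dist (x : X) (y : X) ≤ ‖f x - f y‖ ∧
          ‖f x - f y‖ ≤ s * (2 * D) * dist (x : X) (y : X) := fun i => by
    have h1 : c2 (A i) < ENNReal.ofReal (2 * D) :=
      (hA i).trans_lt ((ENNReal.ofReal_lt_ofReal_iff (by linarith)).2 (by linarith))
    obtain ⟨t, ⟨D', -, rfl, H, i1, i2, i3, f, s, hs, hf⟩, ht⟩ := sInf_lt_iff.1 h1
    have h2 : D' < 2 * D := (ENNReal.ofReal_lt_ofReal_iff (by linarith)).1 ht
    exact ⟨H, i1, i2, i3, f, s, hs, fun x y => ⟨(hf x y).1, (hf x y).2.trans (by gcongr)⟩⟩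
  choose H i1 i2 i3 he using ex
  obtain ⟨G, hG⟩ := H93Kz.embed' A (g := ⌈80 * D⌉₊) (H := H) (D := 2 * D) (by linarith)
    (by linarith [Nat.le_ceil (80 * D)]) he
  have hk1 : (1 : ℝ) ≤ k := by exact_mod_cast hk
  have hb : (k : ℝ) ^ (⌈80 * D⌉₊ + 2) ≤ (k : ℝ) ^ (83 * D) := by
    rw [← Real.rpow_natCast]
    refine Real.rpow_le_rpow_of_exponent_le hk1 ?_
    have := (Nat.ceil_lt_add_one (by linarith : 0 ≤ 80 * D)).le
    push_cast; linarith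
  have h1 : (1 : ℝ) ≤ D ^ 4 := one_le_pow₀ hD
  have h2 : (1 : ℝ) ≤ (k : ℝ) ^ (83 * D) := Real.one_le_rpow hk1 (by linarith)
  refine sInf_le ⟨_, by nlinarith, rfl, _, inferInstance, inferInstance, inferInstance, G, 1 / 2,
    by norm_num, fun x y => ⟨(hG x y).1, (hG x y).2.trans ?_⟩⟩
  have : 1344000 * (2 * D) ^ 4 * (k : ℝ) ^ (⌈80 * D⌉₊ + 2) ≤
      21504000 * D ^ 4 * (k : ℝ) ^ (83 * D) := by
    calc _ = 21504000 * D ^ 4 * (k : ℝ) ^ (⌈80 * D⌉₊ + 2) := by ring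
      _ ≤ _ := by gcongr
  gcongr

end Pool.Agent.Results.MP_caca3f_an.PolyUpper
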